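import Mathlib

/-! MP_f69198_co: families whose pairwise unions cover all subsets.
Definitions and packet statements for the structure theorem. -/

namespace Pool.Agent.Lead.UB

open Finset

/-- Every subset of the ground set is the union of two members of `F`. -/
def UnionBasis {N : ℕ} (F : Finset (Finset (Fin N))) : Prop :=
  ∀ S : Finset (Fin N), ∃ A ∈ F, ∃ B ∈ F, A ∪ B = S

/-- The pair `(A, B)` is quasi-random up to `ε`: both sets have density within `ε` of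
`1 - 1/√2`, and their intersection has density within `ε` of `(1 - 1/√2)^2 = 3/2 - √2`. -/
def QuasiRandom {N : ℕ} (ε : ℝ) (A B : Finset (Fin N)) : Prop :=
  |(#A : ℝ) - (1 - 1 / √2) * N| ≤ ε * N ∧ |(#B : ℝ) - (1 - 1 / √2) * N| ≤ ε * N ∧
    |(#(A ∩ B) : ℝ) - (3 / 2 - √2) * N| ≤ ε * N

/-- `S` halves `T` up to `η N`: the complement of `S` meets `T` in about `|T| / 2` points. -/
def Halves {N : ℕ} (η : ℝ) (S T : Finset (Fin N)) : Prop :=
  |(#(Sᶜ ∩ T) : ℝ) - #T / 2| ≤ η * N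

open scoped Classical in
/-- Packet 1 (Chebyshev): few sets fail to halve a given `T`. -/
def StmtCheb : Prop :=
  ∀ (N : ℕ) (T : Finset (Fin N)) (η : ℝ), 0 < η → 0 < N →
    (#{S : Finset (Fin N) | ¬ Halves η S T} : ℝ) ≤ 2 ^ N / (4 * η ^ 2 * N)

/-- The intersection of the complements of the sets `A i`, `i ∈ J`
(the whole ground set for `J = ∅`). -/
def cap {N t : ℕ} (A : Fin t → Finset (Fin N)) (J : Finset (Fin t)) : Finset (Fin N) :=
  univ.filter fun v => ∀ i ∈ J, v ∉ A i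

/-- A typical book: a pair `B, C` and sets `A 0, …, A (t-1)` such that every union along an
edge (`B C`, `A i B`, `A i C`) halves all sets obtained from at most four other sets. -/
def TypicalBook {N t : ℕ} (η : ℝ) (B C : Finset (Fin N)) (A : Fin t → Finset (Fin N)) : Prop :=
  (∀ J : Finset (Fin t), #J ≤ 4 → Halves η (B ∪ C) (cap A J)) ∧
  (∀ i, ∀ J : Finset (Fin t), #J ≤ 3 → i ∉ J → Halves η (A i ∪ B) (cap A J ∩ Cᶜ)) ∧
  (∀ i, ∀ J : Finset (Fin t), #J ≤ 2 → i ∉ J → Halves η (A i ∪ C) (cap A J)) ∧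
  (∀ i, Halves η (A i ∪ C) Bᶜ)

/-- Packet 2 (analysis of a typical book). -/
def StmtBook : Prop :=
  ∀ ε : ℝ, 0 < ε → ∃ η : ℝ, 0 < η ∧ ∃ t : ℕ, ∀ (N : ℕ), 0 < N →
    ∀ (B C : Finset (Fin N)) (A : Fin t → Finset (Fin N)),
      TypicalBook η B C A → QuasiRandom ε B C

/-- Packet 3 (graph counting): a graph on `V` with more than `m^2/4 + δ m^2` edges has a
positive density of books. `R` is a symmetric irreflexive relation, edges are ordered pairs. -/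
def StmtCount : Prop :=
  ∀ (V : Type) [Fintype V] [DecidableEq V] (R : V → V → Prop) [DecidableRel R],
    (∀ x y, R x y → R y x) → (∀ x, ¬ R x x) → ∀ (δ : ℝ), 0 < δ → ∀ t : ℕ,
    (Fintype.card V : ℝ) ^ 2 * (1 / 2 + 2 * δ) ≤ (#{p : V × V | R p.1 p.2} : ℝ) →
    (4 * δ) ^ t / 2 * (Fintype.card V : ℝ) ^ (t + 2) ≤
      (#{q : (V × V) × (Fin t → V) | R q.1.1 q.1.2 ∧
        ∀ i, R (q.2 i) q.1.1 ∧ R (q.2 i) q.1.2} : ℝ)

/-- Packet 4 (bad books are rare): `rep` is an injective labelling of ordered edges by their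
unions; `E` is a set of unordered edges. -/
def StmtBad : Prop :=
  ∀ (N t : ℕ) (F : Finset (Finset (Fin N))) (R : Finset (Fin N) → Finset (Fin N) → Prop),
    (∀ A B, R A B → A ∈ F ∧ B ∈ F) → (∀ A B, R A B → R B A) →
    (∀ A B A' B', R A B → R A' B' → A ∪ B = A' ∪ B' → (A = A' ∧ B = B') ∨ (A = B' ∧ B = A')) →
    ∀ η : ℝ, 0 < η → 0 < N → 2 ^ N ≤ #F ^ 2 → StmtCheb →
    ∀ (X : Finset ((Finset (Fin N) × Finset (Fin N)) × (Fin t → Finset (Fin N)))),
      (∀ q ∈ X, R q.1.1 q.1.2 ∧ (∀ i, R (q.2 i) q.1.1 ∧ R (q.2 i) q.1.2)) →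
      (∀ q ∈ X, ¬ TypicalBook η q.1.1 q.1.2 q.2) →
      (#X : ℝ) ≤ (t + 2) ^ 4 * 8 / (η ^ 2 * N) * (#F : ℝ) ^ (t + 2)

open scoped Classical in
/-- The theorem. -/
def StmtMain : Prop :=
  ∀ ε : ℝ, 0 < ε → ∃ n₀ : ℕ, ∀ n ≥ n₀, ∀ F : Finset (Finset (Fin (2 * n))), UnionBasis F →
    (4 : ℝ) ^ n - (#F : ℝ) ^ 2 / 4 - ε * 4 ^ n ≤
      #{S : Finset (Fin (2 * n)) | ∀ A ∈ F, ∀ B ∈ F, A ∪ B = S → QuasiRandom ε A B}

end Pool.Agent.Lead.UB
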